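import Mathlib

set_option autoImplicit false

open Finset

namespace Pool.Agent.H293Z.Cap

variable {ι : Type}

/-- smoothed geometric mean of the distances -/
noncomputable def Phi (w : ι → ℂ) (S : Finset ι) (k : ℕ) (y : ℂ) (d : ℝ) : ℝ :=
  (∏ i ∈ S, max ‖w i - y‖ (4 * d)) ^ (((3 * k : ℕ) : ℝ)⁻¹)

/-- the majorant -/
noncomputable def Mj (w : ι → ℂ) (S : Finset ι) (k : ℕ) (d : ℝ) (z : ℂ) : ℝ :=
  1 + (k : ℝ)⁻¹ * ∑ i ∈ S, (if ‖w i - z‖ ≤ d then d / ‖w i - z‖ else 0)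

theorem prod_pos' (w : ι → ℂ) (S : Finset ι) (y : ℂ) (d : ℝ) (hd : 0 < d) :
    0 < ∏ i ∈ S, max ‖w i - y‖ (4 * d) :=
  Finset.prod_pos (fun _ _ => lt_max_of_lt_right (by positivity))

theorem Phi_pos (w : ι → ℂ) (S : Finset ι) (k : ℕ) (y : ℂ) (d : ℝ) (hd : 0 < d) :
    0 < Phi w S k y d := Real.rpow_pos_of_pos (prod_pos' w S y d hd) _

theorem Phi_pow (w : ι → ℂ) (S : Finset ι) (k : ℕ) (hk : 1 ≤ k) (y : ℂ) (d : ℝ) (hd : 0 < d) :
    Phi w S k y d ^ (3 * k) = ∏ i ∈ S, max ‖w i - y‖ (4 * d) :=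
  Real.rpow_inv_natCast_pow (prod_pos' w S y d hd).le (by omega)

theorem Phi_mono (w : ι → ℂ) (S : Finset ι) (k : ℕ) (hk : 1 ≤ k) (y : ℂ) (d : ℝ) (hd : 0 < d) :
    Phi w S k y d ≤ Phi w S k y (2 * d) := by
  have h2 : 0 < 2 * d := by positivity
  refine le_of_pow_le_pow_left₀ (n := 3 * k) (by omega) (Phi_pos w S k y _ h2).le ?_
  rw [Phi_pow w S k hk y d hd, Phi_pow w S k hk y _ h2]
  refine Finset.prod_le_prod (fun _ _ => le_max_of_le_left (norm_nonneg _)) ?_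
  intro i _
  exact max_le_max le_rfl (by linarith)

theorem Phi_grow (w : ι → ℂ) (S : Finset ι) (k : ℕ) (hk : 1 ≤ k) (y : ℂ) (d r : ℝ) (hd : 0 < d)
    (hr : r ≤ 4 * d) (hc : k ≤ (S.filter (fun i => ‖w i - y‖ ≤ r)).card) :
    5 / 4 * Phi w S k y d ≤ Phi w S k y (2 * d) := by
  classical
  have h2 : 0 < 2 * d := by positivity
  refine le_of_pow_le_pow_left₀ (n := 3 * k) (by omega) (Phi_pos w S k y _ h2).le ?_
  rw [mul_pow, Phi_pow w S k hk y d hd, Phi_pow w S k hk y _ h2]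
  have h1 : (5 / 4 : ℝ) ^ (3 * k) ≤ ∏ i ∈ S, (if ‖w i - y‖ ≤ r then (2 : ℝ) else 1) := by
    rw [Finset.prod_ite, Finset.prod_const, Finset.prod_const_one, mul_one, pow_mul]
    calc ((5 / 4 : ℝ) ^ 3) ^ k ≤ 2 ^ k := by
          apply pow_le_pow_left₀ (by positivity); norm_num
      _ ≤ _ := pow_le_pow_right₀ (by norm_num) hc
  calc (5 / 4 : ℝ) ^ (3 * k) * ∏ i ∈ S, max ‖w i - y‖ (4 * d)
      ≤ (∏ i ∈ S, (if ‖w i - y‖ ≤ r then (2 : ℝ) else 1)) * ∏ i ∈ S, max ‖w i - y‖ (4 * d) :=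
        mul_le_mul_of_nonneg_right h1 (prod_pos' w S y d hd).le
    _ = ∏ i ∈ S, ((if ‖w i - y‖ ≤ r then (2 : ℝ) else 1) * max ‖w i - y‖ (4 * d)) := by
        rw [Finset.prod_mul_distrib]
    _ ≤ _ := by
        refine Finset.prod_le_prod ?_ ?_
        · intro i _
          have : 0 ≤ max ‖w i - y‖ (4 * d) := le_max_of_le_left (norm_nonneg _)
          split_ifs <;> positivity
        · intro i _
          split_ifs with h
          · have : max ‖w i - y‖ (4 * d) = 4 * d := max_eq_right (by linarith)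
            rw [this]
            exact le_max_of_le_right (by linarith)
          · rw [one_mul]
            exact max_le_max le_rfl (by linarith)

theorem one_le_Mj (w : ι → ℂ) (S : Finset ι) (k : ℕ) (d : ℝ) (hd : 0 < d) (z : ℂ) :
    1 ≤ Mj w S k d z := by
  unfold Mj
  have : 0 ≤ ∑ i ∈ S, (if ‖w i - z‖ ≤ d then d / ‖w i - z‖ else 0) := by
    refine Finset.sum_nonneg (fun i _ => ?_)
    split_ifs <;> positivity
  have : 0 ≤ (k : ℝ)⁻¹ * ∑ i ∈ S, (if ‖w i - z‖ ≤ d then d / ‖w i - z‖ else 0) := by positivity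
  linarith

theorem prod_near_le (w : ι → ℂ) (S : Finset ι) (k : ℕ) (hk : 1 ≤ k) (d : ℝ) (hd : 0 < d) (z : ℂ)
    (hc : (S.filter (fun i => ‖w i - z‖ ≤ d)).card ≤ k) :
    ∏ i ∈ S, (if ‖w i - z‖ ≤ d then d / ‖w i - z‖ else 1) ≤ (3 * Mj w S k d z) ^ k := by
  classical
  set M := Mj w S k d z with hM
  have hM1 : 1 ≤ M := one_le_Mj w S k d hd z
  have hM0 : 0 < M := by linarith
  set F := S.filter (fun i => ‖w i - z‖ ≤ d) with hF
  set s := ∑ i ∈ F, d / ‖w i - z‖ with hs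
  have hk0 : (0 : ℝ) < k := by exact_mod_cast hk
  have hMs : M = 1 + (k : ℝ)⁻¹ * s := by
    rw [hM, Mj, hs, hF, Finset.sum_filter]
  have hsM : s / M ≤ k := by
    rw [div_le_iff₀ hM0, hMs, mul_add, ← mul_assoc, mul_inv_cancel₀ hk0.ne']
    linarith
  rw [Finset.prod_ite, Finset.prod_const_one, mul_one]
  calc ∏ i ∈ F, d / ‖w i - z‖ ≤ ∏ i ∈ F, (M * Real.exp (d / ‖w i - z‖ / M)) := by
        refine Finset.prod_le_prod (fun i _ => by positivity) ?_
        intro i _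
        have h1 := Real.add_one_le_exp (d / ‖w i - z‖ / M)
        have h2 : d / ‖w i - z‖ = M * (d / ‖w i - z‖ / M) := by field_simp
        calc d / ‖w i - z‖ = M * (d / ‖w i - z‖ / M) := h2
          _ ≤ _ := mul_le_mul_of_nonneg_left (by linarith) hM0.le
    _ = M ^ F.card * Real.exp (s / M) := by
        rw [Finset.prod_mul_distrib, Finset.prod_const, ← Real.exp_sum, hs, Finset.sum_div]
    _ ≤ M ^ k * Real.exp (k : ℝ) := by
        gcongr
    _ ≤ M ^ k * 3 ^ k := by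
        gcongr
        have : Real.exp (k : ℝ) = Real.exp 1 ^ k := by rw [← Real.exp_nat_mul]; simp
        rw [this]
        apply pow_le_pow_left₀ (Real.exp_pos _).le
        linarith [Real.exp_one_lt_d9]
    _ = _ := by rw [mul_pow]; ring

theorem pointwise [DecidableEq ι] (w : ι → ℂ) (S : Finset ι) (n k : ℕ) (hk : 1 ≤ k)
    (hS : S.card = (n + 1) * (3 * k)) (b q d : ℝ) (hb : 0 ≤ b) (hq : 0 ≤ q) (hd : 0 < d) (y z : ℂ)
    (hzy : ‖z - y‖ ≤ 6 * d) (hc : (S.filter (fun i => ‖w i - z‖ ≤ d)).card ≤ k)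
    (hne : ∀ i ∈ S, w i ≠ z) (hK : ∏ i ∈ S, ‖w i - z‖ ≤ b ^ (3 * k))
    (B : Finset ι) (hB : B ⊆ S) (hBc : B.card = 3 * k)
    (hQ : q ^ (3 * k) ≤ 3 ^ (n * (3 * k)) * ∏ i ∈ S \ B, ‖w i - z‖) :
    q ^ 2 ≤ 81 ^ (n + 1) * (3 * 343 ^ (n + 1)) / d ^ 2 *
      min (Phi w S k y d ^ 2) (b ^ 3 / Phi w S k y d) * Mj w S k d z := by
  set P := Phi w S k y d with hP
  set M := Mj w S k d z with hM
  have hP0 : 0 < P := Phi_pos w S k y d hd
  have hM1 : 1 ≤ M := one_le_Mj w S k d hd z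
  have hPp : P ^ (3 * k) = ∏ i ∈ S, max ‖w i - y‖ (4 * d) := Phi_pow w S k hk y d hd
  have tri1 : ∀ i, ‖w i - z‖ ≤ ‖w i - y‖ + ‖z - y‖ := by
    intro i
    have : w i - z = (w i - y) - (z - y) := by ring
    rw [this]; exact norm_sub_le _ _
  have tri2 : ∀ i, ‖w i - y‖ ≤ ‖w i - z‖ + ‖z - y‖ := by
    intro i
    have : w i - y = (w i - z) + (z - y) := by ring
    rw [this]; exact norm_add_le _ _
  have h1 : q * d ≤ 9 ^ (n + 1) * P := by
    refine le_of_pow_le_pow_left₀ (n := 3 * k) (by omega) (by positivity) ?_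
    have e1 : d ^ (3 * k) * ∏ i ∈ S \ B, ‖w i - z‖ ≤ ∏ i ∈ S, (3 * max ‖w i - y‖ (4 * d)) := by
      rw [← Finset.prod_sdiff hB, ← hBc, ← Finset.prod_const, mul_comm]
      refine mul_le_mul ?_ ?_ (Finset.prod_nonneg (fun _ _ => hd.le))
        (Finset.prod_nonneg (fun i _ => ?_))
      · refine Finset.prod_le_prod (fun _ _ => norm_nonneg _) (fun i _ => ?_)
        have := le_max_left ‖w i - y‖ (4 * d)
        have := le_max_right ‖w i - y‖ (4 * d)
        linarith [tri1 i]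
      · refine Finset.prod_le_prod (fun _ _ => hd.le) (fun i _ => ?_)
        have := le_max_right ‖w i - y‖ (4 * d)
        linarith
      · have := le_max_right ‖w i - y‖ (4 * d)
        linarith
    rw [Finset.prod_mul_distrib, Finset.prod_const, hS, ← hPp] at e1
    have e2 : ((9 : ℝ) ^ (n + 1) * P) ^ (3 * k)
        = 3 ^ ((n + 1) * (3 * k)) * (3 ^ ((n + 1) * (3 * k)) * P ^ (3 * k)) := by
      rw [mul_pow, ← pow_mul, show (9 : ℝ) = 3 * 3 by norm_num, mul_pow]; ring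
    have e3 : (3 : ℝ) ^ (n * (3 * k)) ≤ 3 ^ ((n + 1) * (3 * k)) :=
      pow_le_pow_right₀ (by norm_num) (Nat.mul_le_mul_right _ (by omega))
    rw [e2, mul_pow]
    have hp0 : 0 ≤ ∏ i ∈ S \ B, ‖w i - z‖ := Finset.prod_nonneg (fun _ _ => norm_nonneg _)
    calc q ^ (3 * k) * d ^ (3 * k)
        ≤ (3 ^ (n * (3 * k)) * ∏ i ∈ S \ B, ‖w i - z‖) * d ^ (3 * k) := by gcongr
      _ = 3 ^ (n * (3 * k)) * (d ^ (3 * k) * ∏ i ∈ S \ B, ‖w i - z‖) := by ring
      _ ≤ _ := by gcongr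
  have h2 : P ^ 3 ≤ 3 * 343 ^ (n + 1) * b ^ 3 * M := by
    refine le_of_pow_le_pow_left₀ (n := k) (by omega) (by positivity) ?_
    rw [← pow_mul, hPp]
    have e1 : ∏ i ∈ S, max ‖w i - y‖ (4 * d) ≤
        ∏ i ∈ S, (7 * (‖w i - z‖ * (if ‖w i - z‖ ≤ d then d / ‖w i - z‖ else 1))) := by
      refine Finset.prod_le_prod (fun _ _ => le_max_of_le_left (norm_nonneg _)) (fun i hi => ?_)
      have hn : 0 < ‖w i - z‖ := norm_pos_iff.mpr (sub_ne_zero.mpr (hne i hi))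
      split_ifs with h
      · rw [mul_div_cancel₀ _ hn.ne']
        exact max_le (by linarith [tri2 i]) (by linarith)
      · push Not at h
        rw [mul_one]
        exact max_le (by linarith [tri2 i]) (by linarith)
    rw [Finset.prod_mul_distrib, Finset.prod_mul_distrib, Finset.prod_const, hS] at e1
    have e2 := prod_near_le w S k hk d hd z hc
    have e3 : 0 ≤ ∏ i ∈ S, (if ‖w i - z‖ ≤ d then d / ‖w i - z‖ else 1) := by
      refine Finset.prod_nonneg (fun i _ => ?_)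
      split_ifs <;> positivity
    have e4 : ((3 : ℝ) * 343 ^ (n + 1) * b ^ 3 * M) ^ k
        = 7 ^ ((n + 1) * (3 * k)) * (b ^ (3 * k) * (3 * M) ^ k) := by
      have : (7 : ℝ) ^ ((n + 1) * (3 * k)) = (343 ^ (n + 1)) ^ k := by
        rw [show (343 : ℝ) = 7 ^ 3 by norm_num, ← pow_mul, ← pow_mul]; congr 1; ring
      rw [this, pow_mul b, ← mul_pow, ← mul_pow]; congr 1; ring
    rw [e4]
    refine e1.trans ?_
    gcongr
  have h3 : q ^ 2 ≤ 81 ^ (n + 1) * P ^ 2 / d ^ 2 := by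
    rw [le_div_iff₀ (by positivity)]
    have : (q * d) ^ 2 ≤ (9 ^ (n + 1) * P) ^ 2 := by gcongr
    have e : ((9 : ℝ) ^ (n + 1)) ^ 2 = 81 ^ (n + 1) := by
      rw [← pow_mul, mul_comm, pow_mul]; norm_num
    rw [mul_pow, mul_pow, e] at this
    exact this
  have h4 : P ^ 2 ≤ (3 * 343 ^ (n + 1)) * min (P ^ 2) (b ^ 3 / P) * M := by
    have hC : (1 : ℝ) ≤ 3 * 343 ^ (n + 1) := by
      have : (1 : ℝ) ≤ 343 ^ (n + 1) := one_le_pow₀ (by norm_num)
      linarith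
    rcases le_total (P ^ 2) (b ^ 3 / P) with h | h
    · rw [min_eq_left h]
      have : P ^ 2 ≤ (3 * 343 ^ (n + 1)) * P ^ 2 := le_mul_of_one_le_left (by positivity) hC
      exact this.trans (le_mul_of_one_le_right (by positivity) hM1)
    · rw [min_eq_right h]
      have : (3 * 343 ^ (n + 1)) * (b ^ 3 / P) * M = (3 * 343 ^ (n + 1) * b ^ 3 * M) / P := by
        field_simp
      rw [this, le_div_iff₀ hP0]
      calc P ^ 2 * P = P ^ 3 := by ring
        _ ≤ _ := h2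
  calc q ^ 2 ≤ 81 ^ (n + 1) * P ^ 2 / d ^ 2 := h3
    _ ≤ 81 ^ (n + 1) * ((3 * 343 ^ (n + 1)) * min (P ^ 2) (b ^ 3 / P) * M) / d ^ 2 := by gcongr
    _ = _ := by ring

theorem tele_step (b P P' : ℝ) (hb : 0 ≤ b) (hP : 0 < P) (h : 5 / 4 * P ≤ P') :
    min (P ^ 2) (b ^ 3 / P) ≤ 20 * b ^ 2 * (P' / (b + P')) - 20 * b ^ 2 * (P / (b + P)) := by
  have hP' : 0 < P' := by linarith
  have e1 : P' / (b + P') - P / (b + P) = b * (P' - P) / ((b + P') * (b + P)) := by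
    field_simp; ring
  have e2 : b * P / (5 * (b + P) ^ 2) ≤ b * (P' - P) / ((b + P') * (b + P)) := by
    rw [div_le_div_iff₀ (by positivity) (by positivity)]
    have h1 : P * (b + P') ≤ 5 * (P' - P) * (b + P) := by nlinarith
    have h2 : 0 ≤ b * (b + P) := by positivity
    nlinarith [mul_le_mul_of_nonneg_left h1 h2]
  rw [← mul_sub, e1]
  refine le_trans ?_ (mul_le_mul_of_nonneg_left e2 (by positivity))
  have e3 : 20 * b ^ 2 * (b * P / (5 * (b + P) ^ 2)) = 4 * b ^ 3 * P / (b + P) ^ 2 := by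
    field_simp; ring
  rw [e3]
  rcases le_total P b with h1 | h1
  · refine (min_le_left _ _).trans ?_
    rw [le_div_iff₀ (by positivity)]
    have : (b + P) ^ 2 ≤ (2 * b) ^ 2 := by gcongr; linarith
    calc P ^ 2 * (b + P) ^ 2 ≤ P ^ 2 * (2 * b) ^ 2 := by gcongr
      _ = 4 * b ^ 2 * P * P := by ring
      _ ≤ 4 * b ^ 2 * P * b := by gcongr
      _ = _ := by ring
  · refine (min_le_right _ _).trans ?_
    rw [div_le_div_iff₀ hP (by positivity)]
    have : (b + P) ^ 2 ≤ (2 * P) ^ 2 := by gcongr; linarith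
    calc b ^ 3 * (b + P) ^ 2 ≤ b ^ 3 * (2 * P) ^ 2 := by gcongr
      _ = _ := by ring

theorem tele_mono (b P P' : ℝ) (hb : 0 ≤ b) (hP : 0 < P) (h : P ≤ P') :
    0 ≤ 20 * b ^ 2 * (P' / (b + P')) - 20 * b ^ 2 * (P / (b + P)) := by
  have hP' : 0 < P' := by linarith
  have e1 : P' / (b + P') - P / (b + P) = b * (P' - P) / ((b + P') * (b + P)) := by
    field_simp; ring
  rw [← mul_sub, e1]
  have : 0 ≤ P' - P := by linarith
  positivity

theorem tele_sum (u : ℤ → ℝ) (U : ℝ) (h0 : ∀ l, 0 ≤ u l) (hU : ∀ l, u l ≤ U)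
    (hm : ∀ l, 0 ≤ u (l + 1) - u l) (s : Finset ℤ) : ∑ l ∈ s, (u (l + 1) - u l) ≤ U := by
  classical
  obtain ⟨m, hm'⟩ : ∃ m : ℕ, ∀ l ∈ s, l.natAbs < m :=
    ⟨s.sup Int.natAbs + 1, fun l hl => Nat.lt_succ_of_le (Finset.le_sup hl)⟩
  have hsub : s ⊆ (Finset.range (2 * m)).image (fun j : ℕ => (j : ℤ) - m) := by
    intro l hl
    have := hm' l hl
    refine Finset.mem_image.mpr ⟨(l + m).toNat, Finset.mem_range.mpr (by omega), by omega⟩
  refine (Finset.sum_le_sum_of_subset_of_nonneg hsub (fun l _ _ => hm l)).trans ?_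
  rw [Finset.sum_image (by intro a _ b _ h; simpa using h)]
  have := Finset.sum_range_sub (fun j : ℕ => u ((j : ℤ) - m)) (2 * m)
  have e : ∀ j : ℕ, u ((j : ℤ) - m + 1) = u (((j + 1 : ℕ) : ℤ) - m) := by
    intro j; congr 1; push_cast; ring
  simp only [e]
  rw [this]
  linarith [hU (((2 * m : ℕ) : ℤ) - m), h0 (((0 : ℕ) : ℤ) - m)]

end Pool.Agent.H293Z.Cap
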