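import Pool.Agent.H293Z.Cap.Greedy
import Pool.Agent.H293Z.Cap.Point

set_option autoImplicit false

open Finset MeasureTheory
open scoped ENNReal

namespace Pool.Agent.H293Z.Cap

variable {ι : Type}

theorem meas_ker (a : ℂ) (d : ℝ) :
    Measurable (fun z : ℂ => if ‖a - z‖ ≤ d then d / ‖a - z‖ else 0) := by
  refine Measurable.ite ?_ (by fun_prop) measurable_const
  exact measurableSet_le (by fun_prop) measurable_const

theorem lint_ker0 (d : ℝ) (hd : 0 < d) :
    ∫⁻ z : ℂ, ENNReal.ofReal (if ‖z‖ ≤ d then d / ‖z‖ else 0) ≤ ENNReal.ofReal (8 * d ^ 2) := by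
  rw [← Complex.lintegral_comp_polarCoord_symm]
  have h1 : ∫⁻ p in polarCoord.target, ENNReal.ofReal p.1 •
      ENNReal.ofReal (if ‖Complex.polarCoord.symm p‖ ≤ d then d / ‖Complex.polarCoord.symm p‖ else 0)
      ≤ ∫⁻ p : ℝ × ℝ, (Set.Ioc 0 d ×ˢ Set.Ioo (-Real.pi) Real.pi).indicator
        (fun _ => ENNReal.ofReal d) p := by
    rw [← lintegral_indicator polarCoord.open_target.measurableSet]
    refine lintegral_mono (fun p => ?_)
    by_cases hp : p ∈ polarCoord.target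
    · rw [Set.indicator_of_mem hp]
      rw [polarCoord_target] at hp
      have hp1 : 0 < p.1 := hp.1
      rw [Complex.norm_polarCoord_symm, abs_of_pos hp1]
      split_ifs with h
      · rw [Set.indicator_of_mem (by exact ⟨⟨hp1, h⟩, hp.2⟩), smul_eq_mul,
          ← ENNReal.ofReal_mul hp1.le, mul_div_cancel₀ _ hp1.ne']
      · simp
    · rw [Set.indicator_of_notMem hp]; exact zero_le
  refine h1.trans ?_
  rw [lintegral_indicator (measurableSet_Ioc.prod measurableSet_Ioo), setLIntegral_const,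
    Measure.volume_eq_prod, Measure.prod_prod, Real.volume_Ioc, Real.volume_Ioo,
    ← ENNReal.ofReal_mul (by linarith), ← ENNReal.ofReal_mul hd.le]
  refine ENNReal.ofReal_le_ofReal ?_
  have := Real.pi_le_four
  nlinarith [mul_pos hd hd]

theorem lint_ker (a : ℂ) (d : ℝ) (hd : 0 < d) :
    ∫⁻ z : ℂ, ENNReal.ofReal (if ‖a - z‖ ≤ d then d / ‖a - z‖ else 0)
      ≤ ENNReal.ofReal (8 * d ^ 2) := by
  have := lintegral_sub_left_eq_self (μ := (volume : Measure ℂ))
    (fun z : ℂ => ENNReal.ofReal (if ‖z‖ ≤ d then d / ‖z‖ else 0)) a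
  rw [this]
  exact lint_ker0 d hd

theorem meas_Mj (w : ι → ℂ) (S : Finset ι) (k : ℕ) (d : ℝ) : Measurable (Mj w S k d) := by
  unfold Mj
  exact measurable_const.add (measurable_const.mul
    (Finset.measurable_sum _ (fun i _ => meas_ker (w i) d)))

theorem lint_Mj (w : ι → ℂ) (S : Finset ι) (n k : ℕ) (hk : 1 ≤ k)
    (hS : S.card = (n + 1) * (3 * k)) (d : ℝ) (hd : 0 < d) (y : ℂ) :
    ∫⁻ z in Metric.closedBall y (6 * d), ENNReal.ofReal (Mj w S k d z)
      ≤ ENNReal.ofReal ((144 + 24 * (n + 1)) * d ^ 2) := by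
  have hk0 : (0 : ℝ) < k := by exact_mod_cast hk
  have hnn : ∀ i z, 0 ≤ (if ‖w i - z‖ ≤ d then d / ‖w i - z‖ else 0) := by
    intro i z; split_ifs <;> positivity
  have e : ∀ z, ENNReal.ofReal (Mj w S k d z) = 1 + ENNReal.ofReal ((k : ℝ)⁻¹) *
      ∑ i ∈ S, ENNReal.ofReal (if ‖w i - z‖ ≤ d then d / ‖w i - z‖ else 0) := by
    intro z
    unfold Mj
    rw [ENNReal.ofReal_add zero_le_one (mul_nonneg (by positivity)
      (Finset.sum_nonneg (fun i _ => hnn i z))), ENNReal.ofReal_one,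
      ENNReal.ofReal_mul (by positivity), ENNReal.ofReal_sum_of_nonneg (fun i _ => hnn i z)]
  simp only [e]
  rw [lintegral_add_left measurable_const, lintegral_const_mul' _ _ ENNReal.ofReal_ne_top,
    lintegral_finsetSum _ (fun i _ => (meas_ker (w i) d).ennreal_ofReal)]
  have h1 : ∫⁻ _ in Metric.closedBall y (6 * d), (1 : ℝ≥0∞) ≤ ENNReal.ofReal (144 * d ^ 2) := by
    rw [setLIntegral_const, one_mul, Complex.volume_closedBall, ← ENNReal.ofReal_pow (by positivity),
      ← ENNReal.ofReal_coe_nnreal, ← ENNReal.ofReal_mul (by positivity)]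
    refine ENNReal.ofReal_le_ofReal ?_
    have := Real.pi_le_four
    simp only [NNReal.coe_real_pi]
    nlinarith [mul_pos hd hd]
  have h2 : ∑ i ∈ S, ∫⁻ z in Metric.closedBall y (6 * d),
      ENNReal.ofReal (if ‖w i - z‖ ≤ d then d / ‖w i - z‖ else 0)
      ≤ ENNReal.ofReal (S.card * (8 * d ^ 2)) := by
    rw [ENNReal.ofReal_mul (by positivity), ENNReal.ofReal_natCast, ← nsmul_eq_mul]
    refine Finset.sum_le_card_nsmul _ _ _ (fun i _ => ?_)
    exact (setLIntegral_le_lintegral _ _).trans (lint_ker (w i) d hd)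
  calc _ ≤ ENNReal.ofReal (144 * d ^ 2) + ENNReal.ofReal ((k : ℝ)⁻¹) *
        ENNReal.ofReal (S.card * (8 * d ^ 2)) := by gcongr
    _ = _ := by
      rw [← ENNReal.ofReal_mul (by positivity), ← ENNReal.ofReal_add (by positivity) (by positivity)]
      congr 1
      rw [hS]; push_cast; field_simp; ring

theorem core [DecidableEq ι] (w : ι → ℂ) (S : Finset ι) (n k : ℕ) (hk : 1 ≤ k)
    (hS : S.card = (n + 1) * (3 * k)) (b : ℝ) (hb : 0 ≤ b) (K : Set ℂ)
    (hK : ∀ z ∈ K, ∏ i ∈ S, ‖w i - z‖ ≤ b ^ (3 * k)) :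
    ∃ Q : Polynomial ℂ, Q.Monic ∧ Q.natDegree = n ∧
      ∫⁻ z in K, ENNReal.ofReal (‖Q.eval z‖ ^ 2) ≤
        ENNReal.ofReal ((3 * (n + 1)) * (81 ^ (n + 1) * (3 * 343 ^ (n + 1)) * (144 + 24 * (n + 1)) * 20)
          * b ^ 2) := by
  classical
  obtain ⟨Q, hQm, hQd, hQ⟩ := exists_zeros w (3 * k) (by omega) n S hS
  obtain ⟨Y, hYc, hY1, hY2⟩ := exists_cover w k (3 * (n + 1)) S (by rw [hS]; nlinarith)
  refine ⟨Q, hQm, hQd, ?_⟩
  set C1 : ℝ := 81 ^ (n + 1) * (3 * 343 ^ (n + 1)) with hC1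
  set C2 : ℝ := 144 + 24 * (n + 1) with hC2
  have hC10 : 0 ≤ C1 := by positivity
  have hC20 : 0 ≤ C2 := by positivity
  set A : ℂ × ℝ → ℤ → Set ℂ := fun p l => {z | z ∈ K ∧ (∀ i ∈ S, w i ≠ z) ∧
    ‖z - p.1‖ ≤ 6 * (2 : ℝ) ^ l ∧ p.2 ≤ 4 * (2 : ℝ) ^ l ∧
    (S.filter (fun i => ‖w i - z‖ ≤ (2 : ℝ) ^ l)).card ≤ k} with hA
  have hcover : K \ (S.image w : Set ℂ) ⊆ ⋃ p : Y, ⋃ l : ℤ, A p.1 l := by
    intro z hz
    have hne : ∀ i ∈ S, w i ≠ z := by
      intro i hi h
      exact hz.2 (by rw [Finset.mem_coe]; exact Finset.mem_image.mpr ⟨i, hi, h⟩)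
    have hSk : k < S.card := by rw [hS]; nlinarith
    have hSne : S.Nonempty := Finset.card_pos.mp (by omega)
    obtain ⟨l, hl1, hl2⟩ := Int.exists_least_of_bdd
      (P := fun l : ℤ => k < (S.filter (fun i => ‖w i - z‖ ≤ (2 : ℝ) ^ (l + 1))).card) (by
        obtain ⟨a, ha, hmin⟩ := Finset.exists_min_image S (fun i => ‖w i - z‖) hSne
        have hpos : 0 < ‖w a - z‖ := norm_pos_iff.mpr (sub_ne_zero.mpr (hne a ha))
        obtain ⟨m, hm⟩ := exists_mem_Ioc_zpow hpos (by norm_num : (1 : ℝ) < 2)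
        refine ⟨m, fun l hl => ?_⟩
        obtain ⟨i, hi⟩ := Finset.card_pos.mp (lt_of_le_of_lt (Nat.zero_le _) hl)
        have hi' := Finset.mem_filter.mp hi
        have h1 : (2 : ℝ) ^ m < 2 ^ (l + 1) := lt_of_lt_of_le hm.1 ((hmin i hi'.1).trans hi'.2)
        have := (zpow_lt_zpow_iff_right₀ (by norm_num : (1 : ℝ) < 2)).mp h1
        omega) (by
        obtain ⟨a, ha, hmax⟩ := Finset.exists_max_image S (fun i => ‖w i - z‖) hSne
        have hpos : 0 < ‖w a - z‖ := norm_pos_iff.mpr (sub_ne_zero.mpr (hne a ha))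
        obtain ⟨m, hm⟩ := exists_mem_Ioc_zpow hpos (by norm_num : (1 : ℝ) < 2)
        refine ⟨m, ?_⟩
        rw [Finset.filter_true_of_mem (fun i hi => (hmax i hi).trans hm.2)]
        exact hSk)
    obtain ⟨p, hp, hp1, hp2⟩ := hY2 z _ hl1
    have e : (2 : ℝ) ^ (l + 1) = 2 * 2 ^ l := by
      rw [zpow_add_one₀ (by norm_num)]; ring
    refine Set.mem_iUnion.mpr ⟨⟨p, hp⟩, Set.mem_iUnion.mpr ⟨l, hz.1, hne, by
      rw [e] at hp2; simp only; linarith, by rw [e] at hp1; simp only; linarith, ?_⟩⟩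
    by_contra hcon
    push Not at hcon
    have := hl2 (l - 1) (by simpa using hcon)
    omega
  have hnull : volume ((S.image w : Finset ℂ) : Set ℂ) = 0 := Finset.measure_zero _ _
  have hKae : ∫⁻ z in K, ENNReal.ofReal (‖Q.eval z‖ ^ 2)
      = ∫⁻ z in K \ (S.image w : Set ℂ), ENNReal.ofReal (‖Q.eval z‖ ^ 2) := by
    refine setLIntegral_congr (Filter.EventuallyEq.symm ?_)
    exact diff_null_ae_eq_self (by simpa using hnull)
  have hpiece : ∀ p ∈ Y, ∫⁻ z in ⋃ l : ℤ, A p l, ENNReal.ofReal (‖Q.eval z‖ ^ 2)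
      ≤ ENNReal.ofReal (C1 * C2 * 20 * b ^ 2) := by
    intro p hp
    set u : ℤ → ℝ := fun l => 20 * b ^ 2 *
      (Phi w S k p.1 ((2 : ℝ) ^ l) / (b + Phi w S k p.1 ((2 : ℝ) ^ l))) with hu
    have hd : ∀ l : ℤ, (0 : ℝ) < 2 ^ l := fun l => by positivity
    have e : ∀ l : ℤ, (2 : ℝ) ^ (l + 1) = 2 * 2 ^ l := by
      intro l; rw [zpow_add_one₀ (by norm_num)]; ring
    have hu0 : ∀ l, 0 ≤ u l := by
      intro l
      have := Phi_pos w S k p.1 _ (hd l)
      simp only [hu]; positivity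
    have huU : ∀ l, u l ≤ 20 * b ^ 2 := by
      intro l
      have := Phi_pos w S k p.1 _ (hd l)
      refine mul_le_of_le_one_right (by positivity) ?_
      rw [div_le_one (by positivity)]; linarith
    have hum : ∀ l, 0 ≤ u (l + 1) - u l := by
      intro l
      simp only [hu, e]
      exact tele_mono b _ _ hb (Phi_pos w S k p.1 _ (hd l)) (Phi_mono w S k hk p.1 _ (hd l))
    have hl : ∀ l : ℤ, ∫⁻ z in A p l, ENNReal.ofReal (‖Q.eval z‖ ^ 2)
        ≤ ENNReal.ofReal (C1 * C2 * (u (l + 1) - u l)) := by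
      intro l
      by_cases hr : p.2 ≤ 4 * (2 : ℝ) ^ l
      · set d : ℝ := 2 ^ l with hdd
        have hd0 : 0 < d := hd l
        set m := min (Phi w S k p.1 d ^ 2) (b ^ 3 / Phi w S k p.1 d) with hm
        have hP := Phi_pos w S k p.1 _ hd0
        have hm0 : 0 ≤ m := le_min (by positivity) (by positivity)
        have hmu : m ≤ u (l + 1) - u l := by
          simp only [hu, e]
          exact tele_step b _ _ hb hP (Phi_grow w S k hk p.1 d p.2 hd0 hr (hY1 p hp))
        calc ∫⁻ z in A p l, ENNReal.ofReal (‖Q.eval z‖ ^ 2)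
            ≤ ∫⁻ z in A p l, ENNReal.ofReal (C1 / d ^ 2 * m) * ENNReal.ofReal (Mj w S k d z) := by
              refine setLIntegral_mono ((meas_Mj w S k d).ennreal_ofReal.const_mul _) ?_
              intro z hz
              obtain ⟨hz1, hz2, hz3, -, hz5⟩ := hz
              obtain ⟨B, hB1, hB2, hB3⟩ := hQ z
              rw [← ENNReal.ofReal_mul (by positivity)]
              exact ENNReal.ofReal_le_ofReal (pointwise w S n k hk hS b _ d hb (norm_nonneg _) hd0
                p.1 z hz3 hz5 hz2 (hK z hz1) B hB1 hB2 hB3)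
          _ ≤ ∫⁻ z in Metric.closedBall p.1 (6 * d),
              ENNReal.ofReal (C1 / d ^ 2 * m) * ENNReal.ofReal (Mj w S k d z) := by
              refine lintegral_mono_set ?_
              intro z hz
              rw [mem_closedBall_iff_norm]
              exact hz.2.2.1
          _ ≤ ENNReal.ofReal (C1 / d ^ 2 * m) * ENNReal.ofReal (C2 * d ^ 2) := by
              rw [lintegral_const_mul' _ _ ENNReal.ofReal_ne_top]
              gcongr
              exact lint_Mj w S n k hk hS d hd0 p.1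
          _ ≤ _ := by
              rw [← ENNReal.ofReal_mul (by positivity)]
              refine ENNReal.ofReal_le_ofReal ?_
              have : C1 / d ^ 2 * m * (C2 * d ^ 2) = C1 * C2 * m := by field_simp
              rw [this]
              gcongr
      · have : A p l = ∅ := by
          ext z
          simp only [hA, Set.mem_setOf_eq, Set.mem_empty_iff_false, iff_false]
          exact fun h => hr h.2.2.2.1
        rw [this]; simp
    refine (lintegral_iUnion_le _ _).trans ((ENNReal.tsum_le_tsum hl).trans ?_)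
    rw [ENNReal.tsum_eq_iSup_sum]
    refine iSup_le (fun s => ?_)
    rw [← ENNReal.ofReal_sum_of_nonneg (fun l _ => mul_nonneg (by positivity) (hum l)),
      ← Finset.mul_sum]
    refine ENNReal.ofReal_le_ofReal ?_
    have := tele_sum u _ hu0 huU hum s
    calc C1 * C2 * ∑ l ∈ s, (u (l + 1) - u l) ≤ C1 * C2 * (20 * b ^ 2) := by gcongr
      _ = _ := by ring
  rw [hKae]
  refine (lintegral_mono_set hcover).trans ((lintegral_iUnion_le _ _).trans ?_)
  rw [tsum_fintype]
  refine (Finset.sum_le_card_nsmul _ _ _ (fun p _ => hpiece p.1 p.2)).trans ?_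
  rw [Finset.card_univ, Fintype.card_coe, nsmul_eq_mul, ← ENNReal.ofReal_natCast,
    ← ENNReal.ofReal_mul (by positivity)]
  refine ENNReal.ofReal_le_ofReal ?_
  have : (Y.card : ℝ) ≤ 3 * (n + 1) := by exact_mod_cast hYc
  calc (Y.card : ℝ) * (C1 * C2 * 20 * b ^ 2) ≤ (3 * (n + 1)) * (C1 * C2 * 20 * b ^ 2) := by gcongr
    _ = _ := by ring

end Pool.Agent.H293Z.Cap
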