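import Mathlib

set_option autoImplicit false

open Finset

namespace Pool.Agent.H293Z.Cap

variable {ι : Type} [DecidableEq ι]

/-- a nearly smallest disc containing more than `k` of the points -/
theorem exists_min_disc (w : ι → ℂ) (S : Finset ι) (k : ℕ) (hk : k < S.card) :
    ∃ (y : ℂ) (R : ℝ) (H : Finset ι), H ⊆ S ∧ H.card = k ∧ (∀ i ∈ H, ‖w i - y‖ ≤ R) ∧
      ∀ (z : ℂ) (t : ℝ), k < (S.filter (fun i => ‖w i - z‖ ≤ t)).card → R ≤ 2 * t := by
  classical
  have key : ∀ F : Finset ι, F ⊆ S → k < F.card → ∃ a ∈ F, ∃ b ∈ F,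
      k < (S.filter (fun i => ‖w i - w a‖ ≤ ‖w b - w a‖)).card := by
    intro F hF hc
    have hne : F.Nonempty := Finset.card_pos.mp (by omega)
    obtain ⟨a, ha⟩ := hne
    obtain ⟨b, hb, hmax⟩ := Finset.exists_max_image F (fun i => ‖w i - w a‖) ⟨a, ha⟩
    refine ⟨a, ha, b, hb, lt_of_lt_of_le hc (Finset.card_le_card ?_)⟩
    intro i hi
    exact Finset.mem_filter.mpr ⟨hF hi, hmax i hi⟩
  set P := (S ×ˢ S).filter
    (fun p : ι × ι => k < (S.filter (fun i => ‖w i - w p.1‖ ≤ ‖w p.2 - w p.1‖)).card) with hP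
  have hPne : P.Nonempty := by
    obtain ⟨a, ha, b, hb, h⟩ := key S (Finset.Subset.refl _) hk
    exact ⟨(a, b), Finset.mem_filter.mpr ⟨Finset.mem_product.mpr ⟨ha, hb⟩, h⟩⟩
  obtain ⟨p, hp, hmin⟩ := Finset.exists_min_image P (fun p => ‖w p.2 - w p.1‖) hPne
  have hp2 := (Finset.mem_filter.mp hp).2
  obtain ⟨H, hH, hHc⟩ := Finset.exists_subset_card_eq (le_of_lt hp2)
  refine ⟨w p.1, ‖w p.2 - w p.1‖, H, fun i hi => (Finset.mem_filter.mp (hH hi)).1, hHc,
    fun i hi => (Finset.mem_filter.mp (hH hi)).2, ?_⟩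
  intro z t ht
  obtain ⟨a, ha, b, hb, h⟩ := key _ (Finset.filter_subset _ _) ht
  have ha' := Finset.mem_filter.mp ha
  have hb' := Finset.mem_filter.mp hb
  have h1 := hmin (a, b) (Finset.mem_filter.mpr ⟨Finset.mem_product.mpr ⟨ha'.1, hb'.1⟩, h⟩)
  have h2 : ‖w b - w a‖ ≤ ‖w b - z‖ + ‖w a - z‖ := by
    have : w b - w a = (w b - z) - (w a - z) := by ring
    rw [this]; exact norm_sub_le _ _
  simp only at h1
  linarith [ha'.2, hb'.2]

/-- choice of the zeros -/
theorem exists_zeros (w : ι → ℂ) (N : ℕ) (hN : 1 ≤ N) (g : ℕ) :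
    ∀ S : Finset ι, S.card = (g + 1) * N → ∃ Q : Polynomial ℂ, Q.Monic ∧ Q.natDegree = g ∧
      ∀ z : ℂ, ∃ B : Finset ι, B ⊆ S ∧ B.card = N ∧
        ‖Q.eval z‖ ^ N ≤ 3 ^ (g * N) * ∏ i ∈ S \ B, ‖w i - z‖ := by
  classical
  induction g with
  | zero =>
    intro S hS
    refine ⟨1, Polynomial.monic_one, Polynomial.natDegree_one, fun z => ⟨S, Finset.Subset.refl _,
      by simpa using hS, by simp⟩⟩
  | succ g ih =>
    intro S hS
    have hlt : N < S.card := by rw [hS]; nlinarith
    obtain ⟨y, R, H, hHS, hHc, hHR, hmin⟩ := exists_min_disc w S N hlt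
    have hS' : (S \ H).card = (g + 1) * N := by
      rw [Finset.card_sdiff_of_subset hHS, hS, hHc]
      have : (g + 1 + 1) * N = (g + 1) * N + N := by ring
      omega
    obtain ⟨Q, hQm, hQd, hQ⟩ := ih (S \ H) hS'
    refine ⟨Q * (Polynomial.X - Polynomial.C y), hQm.mul (Polynomial.monic_X_sub_C y), ?_, ?_⟩
    · rw [hQm.natDegree_mul (Polynomial.monic_X_sub_C y), hQd, Polynomial.natDegree_X_sub_C]
    intro z
    obtain ⟨B', hB'S, hB'c, hB'⟩ := hQ z
    have hdisj : Disjoint H B' := by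
      rw [Finset.disjoint_left]
      intro i hi hi'
      exact (Finset.mem_sdiff.mp (hB'S hi')).2 hi
    set T := H ∪ B' with hT
    have hTc : T.card = 2 * N := by
      rw [hT, Finset.card_union_of_disjoint hdisj, hHc, hB'c]; ring
    have hTS : T ⊆ S := Finset.union_subset hHS (fun i hi => (Finset.mem_sdiff.mp (hB'S hi)).1)
    set t0 := ‖z - y‖ / 3 with ht0
    set A := T.filter (fun i => ‖w i - z‖ < t0) with hA
    have hAc : A.card ≤ N := by
      by_contra hcon
      push Not at hcon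
      have hne : A.Nonempty := Finset.card_pos.mp (by omega)
      obtain ⟨b, hb, hmax⟩ := Finset.exists_max_image A (fun i => ‖w i - z‖) hne
      have hbt : ‖w b - z‖ < t0 := (Finset.mem_filter.mp hb).2
      have h1 : N < (S.filter (fun i => ‖w i - z‖ ≤ ‖w b - z‖)).card := by
        refine lt_of_lt_of_le hcon (Finset.card_le_card ?_)
        intro i hi
        exact Finset.mem_filter.mpr ⟨hTS (Finset.mem_filter.mp hi).1, hmax i hi⟩
      have h2 := hmin z _ h1
      have h3 : ∃ i ∈ A, i ∈ H := by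
        by_contra hno
        push Not at hno
        have : A ⊆ B' := by
          intro i hi
          have := (Finset.mem_filter.mp hi).1
          rcases Finset.mem_union.mp this with h | h
          · exact absurd h (hno i hi)
          · exact h
        have := Finset.card_le_card this
        omega
      obtain ⟨i, hiA, hiH⟩ := h3
      have h4 := hHR i hiH
      have h5 := hmax i hiA
      have h6 : ‖z - y‖ ≤ ‖w i - z‖ + ‖w i - y‖ := by
        have : z - y = (w i - y) - (w i - z) := by ring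
        rw [this]
        linarith [norm_sub_le (w i - y) (w i - z)]
      linarith
    obtain ⟨B, hAB, hBT, hBc⟩ := Finset.exists_subsuperset_card_eq (Finset.filter_subset _ T : A ⊆ T)
      hAc (by omega : N ≤ T.card)
    refine ⟨B, hBT.trans hTS, hBc, ?_⟩
    have hsplit : S \ B = ((S \ H) \ B') ∪ (T \ B) := by
      ext i
      simp only [Finset.mem_sdiff, Finset.mem_union, hT]
      constructor
      · rintro ⟨h1, h2⟩
        by_cases hH : i ∈ H
        · exact Or.inr ⟨Or.inl hH, h2⟩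
        · by_cases hB : i ∈ B'
          · exact Or.inr ⟨Or.inr hB, h2⟩
          · exact Or.inl ⟨⟨h1, hH⟩, hB⟩
      · rintro (⟨⟨h1, h2⟩, h3⟩ | ⟨h1, h2⟩)
        · refine ⟨h1, fun hB => ?_⟩
          rcases Finset.mem_union.mp (hBT hB) with h | h
          · exact h2 h
          · exact h3 h
        · exact ⟨hTS (Finset.mem_union.mpr h1), h2⟩
    have hd2 : Disjoint ((S \ H) \ B') (T \ B) := by
      rw [Finset.disjoint_left]
      intro i hi hi'
      have h1 := Finset.mem_sdiff.mp hi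
      have h2 := Finset.mem_sdiff.mp h1.1
      rcases Finset.mem_union.mp (Finset.mem_sdiff.mp hi').1 with h | h
      · exact h2.2 h
      · exact h1.2 h
    have hTB : (T \ B).card = N := by
      rw [Finset.card_sdiff_of_subset hBT, hTc, hBc]; omega
    have ht0n : 0 ≤ t0 := by positivity
    have hprod : t0 ^ N ≤ ∏ i ∈ T \ B, ‖w i - z‖ := by
      rw [← hTB, ← Finset.prod_const]
      refine Finset.prod_le_prod (fun _ _ => ht0n) ?_
      intro i hi
      have h1 := Finset.mem_sdiff.mp hi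
      by_contra hcon
      push Not at hcon
      exact h1.2 (hAB (Finset.mem_filter.mpr ⟨h1.1, hcon⟩))
    rw [hsplit, Finset.prod_union hd2, Polynomial.eval_mul, norm_mul, mul_pow]
    have e1 : ‖Polynomial.eval z (Polynomial.X - Polynomial.C y)‖ ^ N = 3 ^ N * t0 ^ N := by
      rw [← mul_pow]
      congr 1
      simp only [Polynomial.eval_sub, Polynomial.eval_X, Polynomial.eval_C, ht0]
      ring
    rw [e1]
    have e2 : (3 : ℝ) ^ ((g + 1) * N) = 3 ^ (g * N) * 3 ^ N := by rw [← pow_add]; congr 1; ring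
    rw [e2]
    have hp0 : 0 ≤ ∏ i ∈ (S \ H) \ B', ‖w i - z‖ := Finset.prod_nonneg (fun _ _ => norm_nonneg _)
    calc ‖Polynomial.eval z Q‖ ^ N * (3 ^ N * t0 ^ N)
        ≤ (3 ^ (g * N) * ∏ i ∈ (S \ H) \ B', ‖w i - z‖) * (3 ^ N * ∏ i ∈ T \ B, ‖w i - z‖) := by
          gcongr
      _ = _ := by ring

/-- all discs with more than `k` points are near one of few discs -/
theorem exists_cover (w : ι → ℂ) (k : ℕ) (g : ℕ) :
    ∀ S : Finset ι, S.card ≤ (g + 1) * k → ∃ Y : Finset (ℂ × ℝ), Y.card ≤ g ∧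
      (∀ p ∈ Y, k ≤ (S.filter (fun i => ‖w i - p.1‖ ≤ p.2)).card) ∧
      ∀ (z : ℂ) (t : ℝ), k < (S.filter (fun i => ‖w i - z‖ ≤ t)).card →
        ∃ p ∈ Y, p.2 ≤ 2 * t ∧ ‖z - p.1‖ ≤ 3 * t := by
  classical
  have base : ∀ (g : ℕ) (S : Finset ι), S.card ≤ k → ∃ Y : Finset (ℂ × ℝ), Y.card ≤ g ∧
      (∀ p ∈ Y, k ≤ (S.filter (fun i => ‖w i - p.1‖ ≤ p.2)).card) ∧
      ∀ (z : ℂ) (t : ℝ), k < (S.filter (fun i => ‖w i - z‖ ≤ t)).card →
        ∃ p ∈ Y, p.2 ≤ 2 * t ∧ ‖z - p.1‖ ≤ 3 * t := by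
    intro g S hS
    refine ⟨∅, by simp, by simp, ?_⟩
    intro z t h
    have := Finset.card_le_card (Finset.filter_subset (fun i => ‖w i - z‖ ≤ t) S)
    omega
  induction g with
  | zero => intro S hS; exact base 0 S (by simpa using hS)
  | succ g ih =>
    intro S hS
    by_cases hk : S.card ≤ k
    · exact base _ S hk
    push Not at hk
    obtain ⟨y, R, H, hHS, hHc, hHR, hmin⟩ := exists_min_disc w S k hk
    have hS' : (S \ H).card ≤ (g + 1) * k := by
      rw [Finset.card_sdiff_of_subset hHS, hHc]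
      have : (g + 1 + 1) * k = (g + 1) * k + k := by ring
      omega
    obtain ⟨Y, hYc, hY1, hY2⟩ := ih (S \ H) hS'
    refine ⟨insert (y, R) Y, (Finset.card_insert_le _ _).trans (by omega), ?_, ?_⟩
    · intro p hp
      rcases Finset.mem_insert.mp hp with rfl | hp
      · rw [← hHc]
        exact Finset.card_le_card (fun i hi => Finset.mem_filter.mpr ⟨hHS hi, hHR i hi⟩)
      · refine (hY1 p hp).trans (Finset.card_le_card ?_)
        exact Finset.filter_subset_filter _ Finset.sdiff_subset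
    · intro z t h
      have hR := hmin z t h
      by_cases hex : ∃ i ∈ H, ‖w i - z‖ ≤ t
      · obtain ⟨i, hiH, hit⟩ := hex
        refine ⟨(y, R), Finset.mem_insert_self _ _, hR, ?_⟩
        have h4 := hHR i hiH
        have h6 : ‖z - y‖ ≤ ‖w i - z‖ + ‖w i - y‖ := by
          have : z - y = (w i - y) - (w i - z) := by ring
          rw [this]
          linarith [norm_sub_le (w i - y) (w i - z)]
        simp only
        linarith
      · push Not at hex
        have : S.filter (fun i => ‖w i - z‖ ≤ t) ⊆ (S \ H).filter (fun i => ‖w i - z‖ ≤ t) := by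
          intro i hi
          have h1 := Finset.mem_filter.mp hi
          refine Finset.mem_filter.mpr ⟨Finset.mem_sdiff.mpr ⟨h1.1, fun hH => ?_⟩, h1.2⟩
          exact absurd h1.2 (not_le.mpr (hex i hH))
        obtain ⟨p, hp, h1, h2⟩ := hY2 z t (lt_of_lt_of_le h (Finset.card_le_card this))
        exact ⟨p, Finset.mem_insert_of_mem hp, h1, h2⟩

end Pool.Agent.H293Z.Cap
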