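import Pool.Agent.H293Z.Cap.Core

set_option autoImplicit false

open Finset MeasureTheory Polynomial
open scoped ENNReal

namespace Pool.Agent.H293Z.Cap

theorem exists_antider (n : ℕ) (Q : ℂ[X]) (hm : Q.Monic) (hd : Q.natDegree = n) :
    ∃ p : ℂ[X], p.Monic ∧ p.natDegree = n + 1 ∧ derivative p = C ((n : ℂ) + 1) * Q := by
  set p : ℂ[X] := ∑ i ∈ Finset.range (n + 1),
    monomial (i + 1) (((n : ℂ) + 1) * Q.coeff i / ((i : ℂ) + 1)) with hp
  have hc : ∀ j, p.coeff (j + 1) =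
      if j < n + 1 then ((n : ℂ) + 1) * Q.coeff j / ((j : ℂ) + 1) else 0 := by
    intro j
    rw [hp, finsetSum_coeff]
    simp only [coeff_monomial, add_left_inj]
    rw [Finset.sum_ite_eq' (Finset.range (n + 1)) j]
    simp
  have hne : ∀ j : ℕ, ((j : ℂ) + 1) ≠ 0 := fun j => by exact_mod_cast Nat.succ_ne_zero j
  have hlead : p.coeff (n + 1) = 1 := by
    rw [hc, if_pos (by omega)]
    have : Q.coeff n = 1 := by rw [← hd]; exact hm
    rw [this, mul_one, div_self (hne n)]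
  have hdeg : p.natDegree ≤ n + 1 := by
    rw [natDegree_le_iff_coeff_eq_zero]
    intro N hN
    obtain ⟨j, rfl⟩ : ∃ j, N = j + 1 := ⟨N - 1, by omega⟩
    rw [hc, if_neg (by omega)]
  refine ⟨p, monic_of_natDegree_le_of_coeff_eq_one _ hdeg hlead,
    natDegree_eq_of_le_of_coeff_ne_zero hdeg (by rw [hlead]; exact one_ne_zero), ?_⟩
  ext j
  rw [coeff_derivative, hc, coeff_C_mul]
  split_ifs with h
  · field_simp [hne j]
  · rw [coeff_eq_zero_of_natDegree_lt (by omega)]; simp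

/-- the estimate on a lemniscate -/
theorem lemn (n : ℕ) : ∃ D : ℝ, 0 < D ∧ ∀ (K : Set ℂ) (q : ℂ[X]) (m : ℕ) (c : ℝ), q.Monic →
    q.natDegree = m + 1 → 0 ≤ c → (∀ z ∈ K, ‖q.eval z‖ ≤ c ^ (m + 1)) →
    ∃ p : ℂ[X], p.Monic ∧ p.natDegree = n + 1 ∧
      Real.sqrt (∫ z in K, ‖(derivative p).eval z‖ ^ 2) ≤ D * c ^ (n + 1) := by
  classical
  set E : ℝ := (3 * (n + 1)) * (81 ^ (n + 1) * (3 * 343 ^ (n + 1)) * (144 + 24 * (n + 1)) * 20)
    with hE
  have hE0 : 0 < E := by positivity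
  refine ⟨(n + 1) * Real.sqrt E, by positivity, ?_⟩
  intro K q m c hq hqd hc hK
  set r : ℂ[X] := q ^ (3 * (n + 1)) with hr
  have hrm : r.Monic := hq.pow _
  have hrs : r.Splits := IsAlgClosed.splits r
  have hcard : Multiset.card r.roots = (n + 1) * (3 * (m + 1)) := by
    rw [← hrs.natDegree_eq_card_roots, hr, hq.natDegree_pow, hqd]; ring
  obtain ⟨Q, hQm, hQd, hQ⟩ := core (ι := r.roots) (fun i => (i : ℂ)) Finset.univ n (m + 1) (by omega)
    (by rw [Finset.card_univ, Multiset.card_coe, hcard]) (c ^ (n + 1)) (by positivity) K (by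
      intro z hz
      have e1 : ∏ i : r.roots, ‖(i : ℂ) - z‖ = ‖r.eval z‖ := by
        have e0 : (r.roots.map (fun a => z - a)).prod = ∏ i : r.roots, (z - (i : ℂ)) := by
          rw [← Multiset.map_univ r.roots (fun a => z - a)]; rfl
        rw [hrs.eval_eq_prod_roots_of_monic hrm z, e0, norm_prod]
        exact Finset.prod_congr rfl (fun i _ => norm_sub_rev _ _)
      rw [e1, hr, eval_pow, norm_pow]
      calc ‖q.eval z‖ ^ (3 * (n + 1)) ≤ (c ^ (m + 1)) ^ (3 * (n + 1)) := by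
            gcongr; exact hK z hz
        _ = _ := by rw [← pow_mul, ← pow_mul]; congr 1; ring)
  obtain ⟨p, hpm, hpd, hp⟩ := exists_antider n Q hQm hQd
  refine ⟨p, hpm, hpd, ?_⟩
  have e : ∀ z, ‖(derivative p).eval z‖ ^ 2 = ((n : ℝ) + 1) ^ 2 * ‖Q.eval z‖ ^ 2 := by
    intro z
    rw [hp, eval_mul, eval_C, norm_mul, mul_pow]
    congr 2
    exact_mod_cast Complex.norm_natCast (n + 1)
  simp only [e]
  rw [integral_const_mul]
  have h1 : ∫ z in K, ‖Q.eval z‖ ^ 2 ≤ E * (c ^ (n + 1)) ^ 2 := by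
    rw [integral_eq_lintegral_of_nonneg_ae (Filter.Eventually.of_forall (fun z => by positivity))
      (Continuous.aestronglyMeasurable (by fun_prop))]
    exact ENNReal.toReal_le_of_le_ofReal (by positivity) hQ
  rw [Real.sqrt_le_iff]
  refine ⟨by positivity, ?_⟩
  rw [mul_pow, mul_pow, Real.sq_sqrt hE0.le, mul_assoc]
  gcongr

theorem main :
    ∀ n : ℕ, 1 ≤ n → ∃ C : ℝ, 0 < C ∧ ∀ K : Set ℂ, IsCompact K → K.Nonempty →
      C * (⨅ p : {p : Polynomial ℂ // p.Monic ∧ p.natDegree = n},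
            Real.sqrt (∫ z in K, ‖(Polynomial.derivative p.1).eval z‖ ^ 2)) ≤
        (⨅ m : ℕ,
            (⨅ q : {q : Polynomial ℂ // q.Monic ∧ q.natDegree = m + 1},
                sSup ((fun z => ‖q.1.eval z‖) '' K)) ^ ((1 : ℝ) / ((m : ℝ) + 1))) ^ n := by
  intro n hn
  obtain ⟨n, rfl⟩ : ∃ n', n = n' + 1 := ⟨n - 1, by omega⟩
  obtain ⟨D, hD, h⟩ := lemn n
  refine ⟨D⁻¹, by positivity, ?_⟩
  intro K hK hne
  set A := ⨅ p : {p : Polynomial ℂ // p.Monic ∧ p.natDegree = n + 1},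
    Real.sqrt (∫ z in K, ‖(Polynomial.derivative p.1).eval z‖ ^ 2) with hA
  have hA0 : 0 ≤ A := Real.iInf_nonneg (fun _ => Real.sqrt_nonneg _)
  have hbdd : BddBelow (Set.range (fun p : {p : Polynomial ℂ // p.Monic ∧ p.natDegree = n + 1} =>
      Real.sqrt (∫ z in K, ‖(Polynomial.derivative p.1).eval z‖ ^ 2))) :=
    ⟨0, by rintro _ ⟨p, rfl⟩; exact Real.sqrt_nonneg _⟩
  set a : ℝ := (D⁻¹ * A) ^ (((n + 1 : ℕ) : ℝ)⁻¹) with ha
  have ha0 : 0 ≤ a := Real.rpow_nonneg (by positivity) _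
  have hap : a ^ (n + 1) = D⁻¹ * A := Real.rpow_inv_natCast_pow (by positivity) (by omega)
  rw [← hap]
  refine pow_le_pow_left₀ ha0 (le_ciInf (fun m => ?_)) _
  have hm0 : (0 : ℝ) < (m : ℝ) + 1 := by positivity
  have : Nonempty {q : Polynomial ℂ // q.Monic ∧ q.natDegree = m + 1} :=
    ⟨⟨X ^ (m + 1), monic_X_pow _, natDegree_X_pow _⟩⟩
  have key : a ^ (m + 1) ≤ ⨅ q : {q : Polynomial ℂ // q.Monic ∧ q.natDegree = m + 1},
      sSup ((fun z => ‖q.1.eval z‖) '' K) := by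
    refine le_ciInf (fun q => ?_)
    set T := sSup ((fun z => ‖q.1.eval z‖) '' K) with hT
    have hb : BddAbove ((fun z => ‖q.1.eval z‖) '' K) :=
      (hK.image (by fun_prop)).bddAbove
    have hle : ∀ z ∈ K, ‖q.1.eval z‖ ≤ T := fun z hz => le_csSup hb ⟨z, hz, rfl⟩
    obtain ⟨z0, hz0⟩ := hne
    have hT0 : 0 ≤ T := (norm_nonneg _).trans (hle z0 hz0)
    set c : ℝ := T ^ (((m + 1 : ℕ) : ℝ)⁻¹) with hc
    have hc0 : 0 ≤ c := Real.rpow_nonneg hT0 _
    have hcp : c ^ (m + 1) = T := Real.rpow_inv_natCast_pow hT0 (by omega)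
    obtain ⟨p, hpm, hpd, hp⟩ := h K q.1 m c q.2.1 q.2.2 hc0 (fun z hz => by rw [hcp]; exact hle z hz)
    have h1 : A ≤ D * c ^ (n + 1) := (ciInf_le hbdd ⟨p, hpm, hpd⟩).trans hp
    have h2 : a ^ (n + 1) ≤ c ^ (n + 1) := by
      rw [hap, inv_mul_le_iff₀ hD]; exact h1
    rw [← hcp]
    exact pow_le_pow_left₀ ha0 (le_of_pow_le_pow_left₀ (by omega) hc0 h2) _
  have e : (1 : ℝ) / ((m : ℝ) + 1) = (((m + 1 : ℕ) : ℝ)⁻¹) := by push_cast; ring
  rw [e]
  calc a = (a ^ (m + 1)) ^ (((m + 1 : ℕ) : ℝ)⁻¹) := (Real.pow_rpow_inv_natCast ha0 (by omega)).symm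
    _ ≤ _ := Real.rpow_le_rpow (by positivity) key (by positivity)

end Pool.Agent.H293Z.Cap
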